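import Pool.Agent.W425.BF.Stm

/-!
# Project BF: the measure of a set given by residues modulo `p`
-/

set_option autoImplicit false

namespace Pool.Agent.W386.BF

open MeasureTheory Pool.Agent.W425.BF

section
variable {p : ℕ} [hp : Fact p.Prime] {n : ℕ}

/-- the residues -/
noncomputable def res (y : Fin n → PadicInt p) : Fin n → ZMod p := fun x => PadicInt.toZMod (y x)

theorem res_add (y z : Fin n → PadicInt p) : res (y + z) = res y + res z := by
  funext x
  simp [res]

theorem toZMod_eq_zero_iff (x : PadicInt p) : PadicInt.toZMod x = 0 ↔ ‖x‖ < 1 := by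
  rw [← RingHom.mem_ker, PadicInt.ker_toZMod, IsLocalRing.mem_maximalIdeal, PadicInt.mem_nonunits]

theorem isOpen_zero : IsOpen {y : Fin n → PadicInt p | res y = 0} := by
  have e : {y : Fin n → PadicInt p | res y = 0} = ⋂ x, {y | ‖y x‖ < 1} := by
    ext y
    simp only [Set.mem_ofPred_eq, Set.mem_iInter]
    constructor
    · intro h x
      rw [← toZMod_eq_zero_iff]
      exact congrFun h x
    · intro h
      funext x
      exact (toZMod_eq_zero_iff _).2 (h x)
  rw [e]
  refine isOpen_iInter_of_finite fun x => ?_
  exact isOpen_lt (by fun_prop) (by fun_prop)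

/-- a lift -/
noncomputable def lft (s : Fin n → ZMod p) : Fin n → PadicInt p := fun x => ((s x).val : PadicInt p)

theorem res_lft (s : Fin n → ZMod p) : res (lft s) = s := by
  funext x
  simp [res, lft]

theorem fib_eq (s : Fin n → ZMod p) : {y : Fin n → PadicInt p | res y = s} =
    (fun y => -lft s + y) ⁻¹' {y | res y = 0} := by
  ext y
  simp only [Set.mem_preimage, Set.mem_ofPred_eq]
  have h : res y = res (lft s) + res (-lft s + y) := by
    rw [← res_add]; congr 1; abel
  rw [res_lft] at h
  constructor
  · intro h1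
    rw [h1] at h
    exact (left_eq_add.1 h)
  · intro h1
    rw [h, h1, add_zero]

variable [MeasurableSpace (Fin n → PadicInt p)] [BorelSpace (Fin n → PadicInt p)]

theorem meas_fib (s : Fin n → ZMod p) : MeasurableSet {y : Fin n → PadicInt p | res y = s} := by
  rw [fib_eq]
  exact (isOpen_zero.preimage (by fun_prop)).measurableSet

theorem mu_fib (s : Fin n → ZMod p) :
    (Measure.addHaar : Measure (Fin n → PadicInt p)) {y | res y = s} =
      (Measure.addHaar : Measure (Fin n → PadicInt p)) {y | res y = 0} := by
  rw [fib_eq, measure_preimage_add]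

theorem mu_finset (T : Finset (Fin n → ZMod p)) :
    (Measure.addHaar : Measure (Fin n → PadicInt p)) {y | res y ∈ T} =
      T.card * (Measure.addHaar : Measure (Fin n → PadicInt p)) {y | res y = 0} := by
  have e : {y : Fin n → PadicInt p | res y ∈ T} = ⋃ s ∈ T, {y | res y = s} := by
    ext y; simp
  rw [e, measure_biUnion_finset]
  · rw [Finset.sum_congr rfl fun s _ => mu_fib s, Finset.sum_const, nsmul_eq_mul]
  · intro s _ s' _ hss'
    refine Set.disjoint_left.2 fun y hy hy' => hss' ?_
    exact hy.symm.trans hy'
  · intro s _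
    exact meas_fib s

end

theorem main : TaskCNT := by
  intro p _ n _ _ S
  classical
  have h1 := mu_finset (p := p) (n := n) Finset.univ
  have h2 := mu_finset (p := p) (n := n) S.toFinset
  have e1 : {y : Fin n → PadicInt p | res y ∈ (Finset.univ : Finset (Fin n → ZMod p))} =
      Set.univ := by
    ext y; simp
  have e2 : {y : Fin n → PadicInt p | res y ∈ S.toFinset} =
      {y | (fun x => PadicInt.toZMod (y x)) ∈ S} := by
    ext y
    change res y ∈ S.toFinset ↔ res y ∈ S
    exact Set.mem_toFinset
  rw [e1] at h1
  rw [e2] at h2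
  rw [h1, h2, ENNReal.toReal_mul, ENNReal.toReal_mul, Finset.card_univ, Fintype.card_fun,
    ZMod.card, Fintype.card_fin, Set.ncard_eq_toFinset_card']
  have hp0 : (p : ℝ) ≠ 0 := by exact_mod_cast (Fact.out : p.Prime).ne_zero
  have hpn : (p : ℝ) ^ n ≠ 0 := pow_ne_zero _ hp0
  rw [ENNReal.toReal_natCast, ENNReal.toReal_natCast]
  push_cast
  field_simp

end Pool.Agent.W386.BF
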